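import Mathlib
import Pool.Agent.Q263.CS.Final

/-! # Prescribing the orders of Q-normality for an arbitrary partition -/

set_option autoImplicit false

open Finset Filter Topology

namespace Pool.Agent.Results.MP_f007e6_nt.PrescribedOrders

/-- `(E_n)_{n ≥ 1}` (together with `E_0 = ⌊x⌋`) is the `Q`-Cantor series expansion of `x`:
`E_n ∈ {0,…,q_n - 1}`, `E_n ≠ q_n - 1` infinitely often, and
`x = ⌊x⌋ + ∑_{n ≥ 1} E_n / (q_1 ⋯ q_n)` -/
def IsExpansion (q : ℕ → ℕ) (x : ℝ) (E : ℕ → ℕ) : Prop :=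
  (∀ n, 1 ≤ n → E n < q n) ∧ (∀ N, ∃ n, N ≤ n ∧ E n ≠ q n - 1) ∧
    HasSum (fun n : ℕ => (E (n + 1) : ℝ) / ∏ i ∈ Icc 1 (n + 1), (q i : ℝ)) (x - ⌊x⌋)

/-- `Q_n^{(k)} = ∑_{j=1}^n 1/(q_j q_{j+1} ⋯ q_{j+k-1})` -/
noncomputable def Qk (q : ℕ → ℕ) (k n : ℕ) : ℝ :=
  ∑ j ∈ Icc 1 n, (∏ t ∈ range k, (q (j + t) : ℝ))⁻¹

/-- the number of indices `1 ≤ i ≤ n` with `(E_i, …, E_{i+k-1}) = B` -/
def count {k : ℕ} (E : ℕ → ℕ) (B : Fin k → ℕ) (n : ℕ) : ℕ :=
  #((Icc 1 n).filter fun i => ∀ t : Fin k, E (i + t) = B t)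

/-- `q` is `k`-divergent for every `k ≥ 1` -/
def FullyDivergent (q : ℕ → ℕ) : Prop := ∀ k, 1 ≤ k → Tendsto (Qk q k) atTop atTop

/-- normality of order `k` of the expansion with digits `E` -/
def NormalOfOrder (q : ℕ → ℕ) (E : ℕ → ℕ) (k : ℕ) : Prop :=
  ∀ B : Fin k → ℕ, Tendsto (fun n => (count E B n : ℝ) / Qk q k n) atTop (𝓝 1)

lemma cnt_eq {k : ℕ} (E : ℕ → ℕ) (B : Fin k → ℕ) (n : ℕ) :
    Q263.CS.cnt E B (fun _ => True) n = count E B n := by
  unfold Q263.CS.cnt count Q263.CS.occ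
  congr 1
  ext i
  simp

/-- **Answer to Q1 (yes).**  For every partition `{1,2,…} = A ⊔ B` into non-empty sets there are a
fully divergent basic sequence `q` (which moreover tends to infinity) and a real number `x` which
is `q`-normal of every order in `A` and is not `q`-normal of some order in `B`. -/
theorem result (A B : Set ℕ) (hA : A.Nonempty) (hB : B.Nonempty) (hdisj : Disjoint A B)
    (hunion : A ∪ B = {k | 1 ≤ k}) :
    ∃ q : ℕ → ℕ, (∀ n, 2 ≤ q n) ∧ Tendsto q atTop atTop ∧ FullyDivergent q ∧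
      ∃ (x : ℝ) (E : ℕ → ℕ), IsExpansion q x E ∧
        (∀ k ∈ A, NormalOfOrder q E k) ∧ ∃ j ∈ B, ¬ NormalOfOrder q E j := by
  obtain ⟨j, hj⟩ := hB
  obtain ⟨k₀, hk₀⟩ := hA
  have hpos : ∀ k, k ∈ A ∪ B → 0 < k := fun k hk => by
    rw [hunion] at hk; exact hk
  set en : ℕ → Prop := fun k => k ≠ j with hen
  have henA : ∀ k ∈ A, en k := fun k hk h => by
    subst h
    exact Set.disjoint_left.mp hdisj hk hj
  obtain ⟨x, hx⟩ := Q263.CS.exists_real Q263.CS.Q (Q263.CS.E en) (fun n => Q263.CS.two_le_q _)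
    (fun n _ => Q263.CS.E_lt en n)
    (Q263.CS.E_inf en (hpos k₀ (Or.inl hk₀)) (henA k₀ hk₀))
  refine ⟨Q263.CS.Q, fun n => Q263.CS.two_le_q _, Q263.CS.tendsto_Q,
    fun k _ => Q263.CS.tendsto_Qs k, x, Q263.CS.E en, hx, ?_, j, hj, ?_⟩
  · intro k hk C
    have h := Q263.CS.freq_one en (hpos k (Or.inl hk)) (henA k hk) C
    refine h.congr fun n => ?_
    rw [cnt_eq]
    rfl
  · intro hnormal
    have hj0 := hpos j (Or.inr hj)
    set C : Fin j → ℕ := fun _ => 0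
    have h1 := hnormal C
    have h2 := Q263.CS.freq_zero en hj0 C (fun _ => True)
      (fun J i _ _ _ _ h => absurd rfl h)
    have h3 : Tendsto (fun n => (count (Q263.CS.E en) C n : ℝ) / Qk Q263.CS.Q j n) atTop (𝓝 0) := by
      refine h2.congr fun n => ?_
      rw [cnt_eq]
      rfl
    have := tendsto_nhds_unique h1 h3
    norm_num at this

end Pool.Agent.Results.MP_f007e6_nt.PrescribedOrders
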